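import Mathlib

open Function

set_option linter.unusedSectionVars false

namespace Pool.Agent.Results.MP_2214b5_lc.ShortPhases

/-- One move of Lunar Lockout in direction `d` (a unit vector).  The configuration `p` gives the
cell of every token; token `i` slides `m` cells in direction `d` and stops immediately before
token `j`, the first token it meets. -/
def Slide {ι : Type} [DecidableEq ι] (d : ℤ × ℤ) (p q : ι → ℤ × ℤ) : Prop :=
  ∃ (i j : ι) (m : ℕ), p j = p i + ((m : ℤ) + 1) • d ∧
    (∀ n : ℕ, n < m → ∀ l, p l ≠ p i + ((n : ℤ) + 1) • d) ∧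
    q = Function.update p i (p i + (m : ℤ) • d)

/-- A horizontal move. -/
def HMove {ι : Type} [DecidableEq ι] (p q : ι → ℤ × ℤ) : Prop :=
  Slide (1, 0) p q ∨ Slide (-1, 0) p q

/-- A vertical move. -/
def VMove {ι : Type} [DecidableEq ι] (p q : ι → ℤ × ℤ) : Prop :=
  Slide (0, 1) p q ∨ Slide (0, -1) p q

/-- `Run h v p q`: a sequence of legal moves from `p` to `q`, of which `h` are horizontal and
`v` are vertical. -/
inductive Run {ι : Type} [DecidableEq ι] : ℕ → ℕ → (ι → ℤ × ℤ) → (ι → ℤ × ℤ) → Prop
  | nil (p : ι → ℤ × ℤ) : Run 0 0 p p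
  | hor {h v : ℕ} {p q z : ι → ℤ × ℤ} : HMove p q → Run h v q z → Run (h + 1) v p z
  | ver {h v : ℕ} {p q z : ι → ℤ × ℤ} : VMove p q → Run h v q z → Run h (v + 1) p z

section copy

variable {ι : Type} [DecidableEq ι]

/-- Copying from a neighbour. -/
def CStep (y r : ι → ℤ) (u w : ι → ℤ) : Prop :=
  ∃ i j, y j = y i ∧ (r j = r i + 1 ∨ r j = r i - 1) ∧ w = update u i (u j)

/-- `r` behaves like a rank function on every row. -/
structure RankLike (y r : ι → ℤ) : Prop where
  inj : ∀ i j, y i = y j → r i = r j → i = j
  up : ∀ a i, y a = y i → r a < r i → ∃ j, y j = y a ∧ r j = r a + 1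
  down : ∀ a i, y a = y i → r a < r i → ∃ j, y j = y a ∧ r j = r i - 1

/-- order-preserving self-map of the tokens. -/
structure OP (y r : ι → ℤ) (s : ι → ι) : Prop where
  row : ∀ i, y (s i) = y i
  ord : ∀ i l, y i = y l → r i ≤ r l → r (s i) ≤ r (s l)

theorem RankLike.neg {y r : ι → ℤ} (h : RankLike y r) : RankLike y (fun i => - r i) where
  inj := fun i j hy hr => h.inj i j hy (by simpa using hr)
  up := by
    intro a i hy hr
    obtain ⟨j, hj1, hj2⟩ := h.down i a hy.symm (by simpa using hr)
    exact ⟨j, by rw [hj1, hy], by omega⟩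
  down := by
    intro a i hy hr
    obtain ⟨j, hj1, hj2⟩ := h.up i a hy.symm (by simpa using hr)
    exact ⟨j, by rw [hj1, hy], by omega⟩

theorem OP.neg {y r : ι → ℤ} {s : ι → ι} (h : OP y r s) : OP y (fun i => - r i) s where
  row := h.row
  ord := by
    intro i l hy hr
    have := h.ord l i hy.symm (by simpa using hr)
    simpa using this

theorem OP.comp {y r : ι → ℤ} {s t : ι → ι} (hs : OP y r s) (ht : OP y r t) :
    OP y r (s ∘ t) where
  row := fun i => by simp [hs.row, ht.row]
  ord := fun i l hy hr => hs.ord _ _ (by rw [ht.row, ht.row, hy]) (ht.ord i l hy hr)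

theorem OP.id (y r : ι → ℤ) : OP y r id where
  row := fun _ => rfl
  ord := fun _ _ _ h => h

theorem CStep.neg {y r u w : ι → ℤ} (h : CStep y (fun i => - r i) u w) : CStep y r u w := by
  obtain ⟨i, j, h1, h2, h3⟩ := h
  refine ⟨i, j, h1, ?_, h3⟩
  simp only at h2
  omega

/-- every copy step is composition with an order-preserving map. -/
theorem CStep.exists_op {y r u w : ι → ℤ} (hR : RankLike y r) (h : CStep y r u w) :
    ∃ t, OP y r t ∧ w = u ∘ t := by
  obtain ⟨i, j, h1, h2, h3⟩ := h
  refine ⟨fun l => if l = i then j else l, ⟨?_, ?_⟩, ?_⟩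
  · intro l
    by_cases hl : l = i
    · simp [hl, h1]
    · simp [hl]
  · intro l l' hy hr
    by_cases hl : l = i
    · by_cases hl' : l' = i
      · simp [hl, hl']
      · simp only [hl, hl', if_true, if_false]
        subst hl
        have : r l ≠ r l' := fun hh => hl' (hR.inj _ _ hy hh).symm
        omega
    · by_cases hl' : l' = i
      · simp only [hl, hl', if_true, if_false]
        subst hl'
        have : r l ≠ r l' := fun hh => hl (hR.inj _ _ hy hh)
        omega
      · simp [hl, hl', hr]
  · funext l
    by_cases hl : l = i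
    · subst hl; simp [h3]
    · simp [h3, hl]

/-- total displacement. -/
def disp [Fintype ι] (r : ι → ℤ) (s : ι → ι) : ℕ := ∑ i, (r (s i) - r i).natAbs

theorem right_step [Fintype ι] {y r : ι → ℤ} (hR : RankLike y r) {s : ι → ι} (hs : OP y r s)
    (hex : ∃ i, r i < r (s i)) :
    ∃ s₁, OP y r s₁ ∧ disp r s₁ < disp r s ∧
      ∀ u : ι → ℤ, ∃ w, CStep y r u w ∧ w ∘ s₁ = u ∘ s := by
  classical
  obtain ⟨i, hi, hmin⟩ : ∃ i, r i < r (s i) ∧ ∀ l, r l < r (s l) → r i ≤ r l := by
    have hne : (Finset.univ.filter (fun i => r i < r (s i))).Nonempty := by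
      obtain ⟨i, hi⟩ := hex
      exact ⟨i, by simp [hi]⟩
    obtain ⟨i, hi, hm⟩ := Finset.exists_min_image _ r hne
    refine ⟨i, by simpa using hi, fun l hl => hm l (by simp [hl])⟩
  obtain ⟨j, hj1, hj2⟩ := hR.down i (s i) (hs.row i).symm hi
  have hyj : y j = y (s i) := by rw [hj1, hs.row]
  have himg : ∀ l, s l ≠ j := by
    intro l hl
    have hyl : y l = y i := by rw [← hs.row l, hl, hj1]
    have h1 : r l < r i := by
      by_contra hcon
      push Not at hcon
      have := hs.ord i l hyl.symm hcon
      rw [hl] at this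
      omega
    have h2 : r l < r (s l) := by rw [hl]; omega
    have := hmin l h2
    omega
  refine ⟨fun l => if s l = s i ∧ r l ≤ r j then j else s l, ⟨?_, ?_⟩, ?_, ?_⟩
  · intro l
    by_cases hl : s l = s i ∧ r l ≤ r j
    · rw [if_pos hl, hyj, ← hl.1, hs.row]
    · rw [if_neg hl, hs.row]
  · intro l l' hy hr
    have hord := hs.ord l l' hy hr
    have hyy : y (s l) = y (s l') := by rw [hs.row, hs.row, hy]
    by_cases hl : s l = s i ∧ r l ≤ r j
    · by_cases hl' : s l' = s i ∧ r l' ≤ r j
      · simp [hl, hl']
      · simp only [if_pos hl, if_neg hl']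
        rw [hl.1] at hord
        omega
    · by_cases hl' : s l' = s i ∧ r l' ≤ r j
      · simp only [if_neg hl, if_pos hl']
        have hne : s l ≠ s i := fun hh => hl ⟨hh, by omega⟩
        have hne2 : r (s l) ≠ r (s i) := by
          intro hh
          apply hne
          apply hR.inj _ _ _ hh
          rw [hyy, hl'.1]
        rw [hl'.1] at hord
        omega
      · simp only [if_neg hl, if_neg hl']
        exact hord
  · unfold disp
    apply Finset.sum_lt_sum
    · intro l _
      by_cases hl : s l = s i ∧ r l ≤ r j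
      · simp only [if_pos hl]
        rw [hl.1]
        omega
      · simp only [if_neg hl]
        exact le_rfl
    · refine ⟨i, Finset.mem_univ _, ?_⟩
      have hl : s i = s i ∧ r i ≤ r j := ⟨rfl, by omega⟩
      have e : (fun l => if s l = s i ∧ r l ≤ r j then j else s l) i = j := if_pos hl
      rw [e]
      omega
  · intro u
    refine ⟨update u j (u (s i)), ⟨j, s i, hyj.symm, Or.inl (by omega), rfl⟩, ?_⟩
    funext l
    by_cases hl : s l = s i ∧ r l ≤ r j
    · simp only [comp_apply]
      rw [if_pos hl, update_self, hl.1]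
    · simp only [comp_apply, if_neg hl]
      rw [update_of_ne (himg l)]

theorem left_step [Fintype ι] {y r : ι → ℤ} (hR : RankLike y r) {s : ι → ι} (hs : OP y r s)
    (hex : ∃ i, r (s i) < r i) :
    ∃ s₁, OP y r s₁ ∧ disp r s₁ < disp r s ∧
      ∀ u : ι → ℤ, ∃ w, CStep y r u w ∧ w ∘ s₁ = u ∘ s := by
  have hd : ∀ t : ι → ι, disp (fun i => - r i) t = disp r t := by
    intro t
    unfold disp
    apply Finset.sum_congr rfl
    intro i _
    simp only
    omega
  obtain ⟨s₁, h1, h2, h3⟩ := right_step hR.neg hs.neg (by
    obtain ⟨i, hi⟩ := hex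
    exact ⟨i, by simpa using hi⟩)
  refine ⟨s₁, ?_, ?_, ?_⟩
  · have := h1.neg
    simpa using this
  · rw [hd, hd] at h2
    exact h2
  · intro u
    obtain ⟨w, hw1, hw2⟩ := h3 u
    exact ⟨w, hw1.neg, hw2⟩

end copy

section geometry

variable {ι : Type} [DecidableEq ι]

/-- the configuration with rows `y`, ranks `r` and reduced positions `u`. -/
def conf (y r u : ι → ℤ) : ι → ℤ × ℤ := fun i => (u i + r i, y i)

/-- reduced positions are weakly increasing along every row. -/
def Mono (y r u : ι → ℤ) : Prop := ∀ i l, y i = y l → r i ≤ r l → u i ≤ u l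

theorem Mono.comp {y r u : ι → ℤ} {s : ι → ι} (hu : Mono y r u) (hs : OP y r s) :
    Mono y r (u ∘ s) := by
  intro i l hy hr
  exact hu _ _ (by rw [hs.row, hs.row, hy]) (hs.ord i l hy hr)

theorem hmove_to_cstep {y r u : ι → ℤ} (hR : RankLike y r) (hu : Mono y r u)
    {q : ι → ℤ × ℤ} (h : HMove (conf y r u) q) :
    ∃ w, CStep y r u w ∧ q = conf y r w := by
  rcases h with h | h
  · obtain ⟨i, j, m, h1, h2, h3⟩ := h
    have h1x : u j + r j = u i + r i + (m + 1) := by
      have := congrArg Prod.fst h1
      simpa [conf] using this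
    have h1y : y j = y i := by
      have := congrArg Prod.snd h1
      simpa [conf] using this
    have hlt : r i < r j := by
      by_contra hcon
      push Not at hcon
      have := hu j i h1y hcon
      omega
    have hr : r j = r i + 1 := by
      by_contra hcon
      obtain ⟨l, hl1, hl2⟩ := hR.up i j h1y.symm hlt
      have hul := hu l j (by rw [hl1, h1y]) (by omega)
      have hul' := hu i l (by rw [hl1]) (by omega)
      have hb1 : u l + r l < u j + r j := by omega
      have hb2 : u i + r i < u l + r l := by omega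
      apply h2 ((u l + r l - (u i + r i) - 1).toNat) (by omega) l
      have hc : (((u l + r l - (u i + r i) - 1).toNat : ℕ) : ℤ) = u l + r l - (u i + r i) - 1 := by
        omega
      ext
      · simp only [conf, hc, Prod.fst_add, Prod.smul_fst, smul_eq_mul]
        ring
      · simp [conf, hl1]
    refine ⟨update u i (u j), ⟨i, j, h1y, Or.inl hr, rfl⟩, ?_⟩
    rw [h3]
    funext l
    by_cases hl : l = i
    · subst hl
      ext
      · simp only [conf, update_self, Prod.fst_add, Prod.smul_fst, smul_eq_mul]
        omega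
      · simp [conf]
    · simp [conf, hl]
  · obtain ⟨i, j, m, h1, h2, h3⟩ := h
    have h1x : u j + r j = u i + r i - (m + 1) := by
      have := congrArg Prod.fst h1
      simp only [conf, Prod.fst_add, Prod.smul_fst, smul_eq_mul] at this
      omega
    have h1y : y j = y i := by
      have := congrArg Prod.snd h1
      simpa [conf] using this
    have hlt : r j < r i := by
      by_contra hcon
      push Not at hcon
      have := hu i j h1y.symm hcon
      omega
    have hr : r j = r i - 1 := by
      by_contra hcon
      obtain ⟨l, hl1, hl2⟩ := hR.down j i h1y hlt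
      have hul := hu j l (by rw [hl1]) (by omega)
      have hul' := hu l i (by rw [hl1, h1y]) (by omega)
      have hb1 : u j + r j < u l + r l := by omega
      have hb2 : u l + r l < u i + r i := by omega
      apply h2 ((u i + r i - (u l + r l) - 1).toNat) (by omega) l
      have hc : (((u i + r i - (u l + r l) - 1).toNat : ℕ) : ℤ) = u i + r i - (u l + r l) - 1 := by
        omega
      ext
      · simp only [conf, hc, Prod.fst_add, Prod.smul_fst, smul_eq_mul]
        ring
      · simp [conf, hl1, h1y]
    refine ⟨update u i (u j), ⟨i, j, h1y, Or.inr hr, rfl⟩, ?_⟩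
    rw [h3]
    funext l
    by_cases hl : l = i
    · subst hl
      ext
      · simp only [conf, update_self, Prod.fst_add, Prod.smul_fst, smul_eq_mul]
        omega
      · simp [conf]
    · simp [conf, hl]

theorem cstep_to_hmove {y r u w : ι → ℤ} (hu : Mono y r u)
    (h : CStep y r u w) : HMove (conf y r u) (conf y r w) := by
  obtain ⟨i, j, h1y, hr, rfl⟩ := h
  rcases hr with hr | hr
  · left
    have hij := hu i j h1y.symm (by omega)
    have hc : (((u j - u i).toNat : ℕ) : ℤ) = u j - u i := by omega
    refine ⟨i, j, (u j - u i).toNat, ?_, ?_, ?_⟩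
    · ext
      · simp only [conf, hc, Prod.fst_add, Prod.smul_fst, smul_eq_mul]
        omega
      · simp [conf, h1y]
    · intro n hn l hl
      have hx : u l + r l = u i + r i + (n + 1) := by
        have := congrArg Prod.fst hl
        simpa [conf] using this
      have hy : y l = y i := by
        have := congrArg Prod.snd hl
        simpa [conf] using this
      rcases le_or_gt (r l) (r i) with hle | hgt
      · have := hu l i hy hle
        omega
      · have := hu j l (by rw [h1y, hy]) (by omega)
        omega
    · funext l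
      by_cases hl : l = i
      · subst hl
        ext
        · simp only [conf, update_self, Prod.fst_add, Prod.smul_fst, smul_eq_mul]
          omega
        · simp [conf]
      · simp [conf, hl]
  · right
    have hij := hu j i h1y (by omega)
    have hc : (((u i - u j).toNat : ℕ) : ℤ) = u i - u j := by omega
    refine ⟨i, j, (u i - u j).toNat, ?_, ?_, ?_⟩
    · ext
      · simp only [conf, hc, Prod.fst_add, Prod.smul_fst, smul_eq_mul]
        omega
      · simp [conf, h1y]
    · intro n hn l hl
      have hx : u l + r l = u i + r i - (n + 1) := by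
        have := congrArg Prod.fst hl
        simp only [conf, Prod.fst_add, Prod.smul_fst, smul_eq_mul] at this
        omega
      have hy : y l = y i := by
        have := congrArg Prod.snd hl
        simpa [conf] using this
      rcases le_or_gt (r i) (r l) with hle | hgt
      · have := hu i l hy.symm hle
        omega
      · have := hu l j (by rw [h1y, hy]) (by omega)
        omega
    · funext l
      by_cases hl : l = i
      · subst hl
        ext
        · simp only [conf, update_self, Prod.fst_add, Prod.smul_fst, smul_eq_mul]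
          omega
        · simp [conf]
      · simp [conf, hl]

/-- any order-preserving rearrangement is reached by few horizontal moves. -/
theorem realize [Fintype ι] {y r : ι → ℤ} (hR : RankLike y r) :
    ∀ (D : ℕ) (s : ι → ι), OP y r s → disp r s ≤ D → ∀ u : ι → ℤ, Mono y r u →
      ∀ (h v : ℕ) (z : ι → ℤ × ℤ), Run h v (conf y r (u ∘ s)) z →
        ∃ h', h' ≤ D + h ∧ Run h' v (conf y r u) z := by
  intro D
  induction D with
  | zero =>
    intro s hs hd u hu h v z hrun
    have hz : ∀ i, s i = i := by
      intro i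
      have h0 : disp r s = 0 := by omega
      unfold disp at h0
      rw [Finset.sum_eq_zero_iff] at h0
      have := h0 i (Finset.mem_univ _)
      exact hR.inj _ _ (hs.row i) (by omega)
    have : u ∘ s = u := by
      funext i
      simp [hz]
    rw [this] at hrun
    exact ⟨h, by omega, hrun⟩
  | succ D ih =>
    intro s hs hd u hu h v z hrun
    by_cases hmv : ∃ i, r (s i) ≠ r i
    · have key : ∃ s₁, OP y r s₁ ∧ disp r s₁ < disp r s ∧
          ∀ u : ι → ℤ, ∃ w, CStep y r u w ∧ w ∘ s₁ = u ∘ s := by
        obtain ⟨i, hi⟩ := hmv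
        rcases lt_or_gt_of_ne hi with hlt | hgt
        · exact left_step hR hs ⟨i, hlt⟩
        · exact right_step hR hs ⟨i, hgt⟩
      obtain ⟨s₁, hs₁, hd₁, hw⟩ := key
      obtain ⟨w, hw1, hw2⟩ := hw u
      have hmw : Mono y r w := by
        obtain ⟨t, ht, rfl⟩ := hw1.exists_op hR
        exact hu.comp ht
      rw [← hw2] at hrun
      obtain ⟨h', hh', hrun'⟩ := ih s₁ hs₁ (by omega) w hmw h v z hrun
      exact ⟨h' + 1, by omega, Run.hor (cstep_to_hmove hu hw1) hrun'⟩
    · push Not at hmv
      have : u ∘ s = u := by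
        funext i
        have : s i = i := hR.inj _ _ (hs.row i) (hmv i)
        simp [this]
      rw [this] at hrun
      exact ⟨h, by omega, hrun⟩

theorem reach_op {y r u : ι → ℤ} (hR : RankLike y r) (hu : Mono y r u) {q : ι → ℤ × ℤ}
    (h : Relation.ReflTransGen HMove (conf y r u) q) :
    ∃ s, OP y r s ∧ q = conf y r (u ∘ s) := by
  induction h with
  | refl => exact ⟨id, OP.id y r, by simp⟩
  | tail _ hm ih =>
    obtain ⟨s, hs, rfl⟩ := ih
    obtain ⟨w, hw1, rfl⟩ := hmove_to_cstep hR (hu.comp hs) hm
    obtain ⟨t, ht, rfl⟩ := hw1.exists_op hR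
    exact ⟨s ∘ t, hs.comp ht, by rw [Function.comp_assoc]⟩

/-- every injective configuration has rank coordinates. -/
theorem exists_conf [Fintype ι] (p : ι → ℤ × ℤ) (hp : Injective p) :
    ∃ y r u : ι → ℤ, RankLike y r ∧ Mono y r u ∧ p = conf y r u ∧
      ∀ i, 0 ≤ r i ∧ r i < (Fintype.card ι : ℤ) := by
  classical
  let B : ι → Finset ι := fun i => Finset.univ.filter (fun j => (p j).2 = (p i).2 ∧ (p j).1 < (p i).1)
  have hB : ∀ i j, j ∈ B i ↔ (p j).2 = (p i).2 ∧ (p j).1 < (p i).1 := by
    intro i j
    simp [B]
  have hsub : ∀ i j, (p i).2 = (p j).2 → (p i).1 < (p j).1 → insert i (B i) ⊆ B j := by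
    intro i j hy hx l hl
    rw [Finset.mem_insert] at hl
    rcases hl with rfl | hl
    · exact (hB _ _).2 ⟨hy, hx⟩
    · have := (hB _ _).1 hl
      exact (hB _ _).2 ⟨by rw [this.1, hy], by omega⟩
  have hni : ∀ i, i ∉ B i := by
    intro i hi
    have := (hB _ _).1 hi
    omega
  have hlt : ∀ i j, (p i).2 = (p j).2 → (p i).1 < (p j).1 → (B i).card < (B j).card := by
    intro i j hy hx
    have := Finset.card_le_card (hsub i j hy hx)
    rw [Finset.card_insert_of_notMem (hni i)] at this
    omega
  have hlt' : ∀ i j, (p i).2 = (p j).2 → (B i).card < (B j).card → (p i).1 < (p j).1 := by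
    intro i j hy hc
    rcases lt_trichotomy (p i).1 (p j).1 with h | h | h
    · exact h
    · have : i = j := hp (Prod.ext h hy)
      subst this
      omega
    · have := hlt j i hy.symm h
      omega
  refine ⟨fun i => (p i).2, fun i => ((B i).card : ℤ), fun i => (p i).1 - ((B i).card : ℤ),
    ⟨?_, ?_, ?_⟩, ?_, ?_, ?_⟩
  · intro i j hy hr
    have hr' : (B i).card = (B j).card := by exact_mod_cast hr
    rcases lt_trichotomy (p i).1 (p j).1 with h | h | h
    · have := hlt i j hy h
      omega
    · exact hp (Prod.ext h hy)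
    · have := hlt j i hy.symm h
      omega
  · -- next token to the right
    intro a i hy hr
    have hr' : (B a).card < (B i).card := by exact_mod_cast hr
    have hx := hlt' a i hy hr'
    have hne : (Finset.univ.filter (fun j => (p j).2 = (p a).2 ∧ (p a).1 < (p j).1)).Nonempty :=
      ⟨i, by simp [hx]; exact hy.symm⟩
    obtain ⟨j, hj, hm⟩ := Finset.exists_min_image _ (fun j => (p j).1) hne
    simp only [Finset.mem_filter, Finset.mem_univ, true_and] at hj hm
    refine ⟨j, hj.1, ?_⟩
    have : B j = insert a (B a) := by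
      apply Finset.Subset.antisymm
      · intro l hl
        have hl' := (hB _ _).1 hl
        rw [Finset.mem_insert]
        rcases lt_trichotomy (p l).1 (p a).1 with h | h | h
        · right
          exact (hB _ _).2 ⟨by rw [hl'.1, hj.1], h⟩
        · left
          exact hp (Prod.ext h (by rw [hl'.1, hj.1]))
        · have := hm l ⟨by rw [hl'.1, hj.1], h⟩
          omega
      · exact hsub a j hj.1.symm hj.2
    simp only [this, Finset.card_insert_of_notMem (hni a)]
    push_cast
    ring
  · -- next token to the left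
    intro a i hy hr
    have hr' : (B a).card < (B i).card := by exact_mod_cast hr
    have hx := hlt' a i hy hr'
    have hne : (B i).Nonempty := ⟨a, (hB _ _).2 ⟨hy, hx⟩⟩
    obtain ⟨j, hj, hm⟩ := Finset.exists_max_image _ (fun j => (p j).1) hne
    have hj' := (hB _ _).1 hj
    refine ⟨j, by rw [hj'.1]; exact hy.symm, ?_⟩
    have : B i = insert j (B j) := by
      apply Finset.Subset.antisymm
      · intro l hl
        have hl' := (hB _ _).1 hl
        have hle := hm l hl
        rw [Finset.mem_insert]
        rcases lt_or_eq_of_le hle with h | h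
        · right
          exact (hB _ _).2 ⟨by rw [hl'.1, hj'.1], h⟩
        · left
          exact hp (Prod.ext h (by rw [hl'.1, hj'.1]))
      · exact hsub j i hj'.1 hj'.2
    simp only [this, Finset.card_insert_of_notMem (hni j)]
    push_cast
    ring
  · -- monotonicity
    intro i l hy hr
    have hr' : (B i).card ≤ (B l).card := by
      have hr0 : ((B i).card : ℤ) ≤ ((B l).card : ℤ) := hr
      exact_mod_cast hr0
    have hy' : (p i).2 = (p l).2 := hy
    rcases lt_trichotomy (p i).1 (p l).1 with h | h | h
    · have hss : B i ⊆ B l := (Finset.subset_insert _ _).trans (hsub i l hy' h)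
      have hcard : (B l \ B i).card ≤ ((p l).1 - (p i).1).toNat := by
        have himg : (B l \ B i).image (fun j => (p j).1) ⊆ Finset.Ico (p i).1 (p l).1 := by
          intro x hx
          rw [Finset.mem_image] at hx
          obtain ⟨j, hj, rfl⟩ := hx
          rw [Finset.mem_sdiff] at hj
          have h1 := (hB _ _).1 hj.1
          rw [Finset.mem_Ico]
          refine ⟨?_, h1.2⟩
          by_contra hcon
          push Not at hcon
          exact hj.2 ((hB _ _).2 ⟨by rw [h1.1, hy'], hcon⟩)
        have hinj : ((B l \ B i).image (fun j => (p j).1)).card = (B l \ B i).card := by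
          apply Finset.card_image_of_injOn
          intro a ha b hb hab
          have ha' := (hB _ _).1 (Finset.mem_sdiff.1 ha).1
          have hb' := (hB _ _).1 (Finset.mem_sdiff.1 hb).1
          exact hp (Prod.ext hab (by rw [ha'.1, hb'.1]))
        have := Finset.card_le_card himg
        rw [hinj, Int.card_Ico] at this
        exact this
      have h2 : (B l \ B i).card = (B l).card - (B i).card := Finset.card_sdiff_of_subset hss
      have h3 : ((p l).1 - (p i).1).toNat = (p l).1 - (p i).1 := by omega
      simp only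
      omega
    · have : i = l := hp (Prod.ext h hy')
      subst this
      exact le_rfl
    · have := hlt l i hy'.symm h
      omega
  · funext i
    simp [conf]
  · intro i
    refine ⟨by positivity, ?_⟩
    have h0 : (B i).card < Fintype.card ι := by
      apply Finset.card_lt_univ_of_notMem (hni i)
    have h1 : ((B i).card : ℤ) < (Fintype.card ι : ℤ) := by exact_mod_cast h0
    exact h1

theorem disp_le [Fintype ι] {r : ι → ℤ} (hr : ∀ i, 0 ≤ r i ∧ r i < (Fintype.card ι : ℤ))
    (s : ι → ι) : disp r s ≤ Fintype.card ι ^ 2 := by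
  unfold disp
  calc ∑ i, (r (s i) - r i).natAbs ≤ ∑ _i : ι, Fintype.card ι := by
        apply Finset.sum_le_sum
        intro i _
        have h1 := hr i
        have h2 := hr (s i)
        omega
    _ = Fintype.card ι ^ 2 := by
        simp [sq]

/-- a horizontal phase can be replaced by at most `k ^ 2` horizontal moves. -/
theorem compress [Fintype ι] {p q : ι → ℤ × ℤ} (hp : Injective p)
    (h : Relation.ReflTransGen HMove p q) {h₀ v : ℕ} {z : ι → ℤ × ℤ} (hz : Run h₀ v q z) :
    ∃ h', h' ≤ Fintype.card ι ^ 2 + h₀ ∧ Run h' v p z := by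
  obtain ⟨y, r, u, hR, hu, rfl, hr⟩ := exists_conf p hp
  obtain ⟨s, hs, rfl⟩ := reach_op hR hu h
  exact realize hR _ s hs (disp_le hr s) u hu h₀ v z hz

theorem Slide.injective {d : ℤ × ℤ} {p q : ι → ℤ × ℤ} (hp : Injective p) (h : Slide d p q) :
    Injective q := by
  obtain ⟨i, j, m, _, h2, rfl⟩ := h
  have key : ∀ l, l ≠ i → p l ≠ p i + (m : ℤ) • d := by
    intro l hl
    rcases Nat.eq_zero_or_pos m with rfl | hm
    · intro hh
      apply hl
      apply hp
      simpa using hh
    · intro hh
      apply h2 (m - 1) (by omega) l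
      rw [hh]
      have : (((m - 1 : ℕ) : ℤ) + 1) = m := by omega
      rw [this]
  intro a b hab
  by_cases ha : a = i
  · by_cases hb : b = i
    · rw [ha, hb]
    · subst ha
      rw [update_self, update_of_ne hb] at hab
      exact absurd hab.symm (key b hb)
  · by_cases hb : b = i
    · subst hb
      rw [update_self, update_of_ne ha] at hab
      exact absurd hab (key a ha)
    · rw [update_of_ne ha, update_of_ne hb] at hab
      exact hp hab

theorem HMove.injective {p q : ι → ℤ × ℤ} (hp : Injective p) (h : HMove p q) : Injective q := by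
  rcases h with h | h
  · exact h.injective hp
  · exact h.injective hp

theorem VMove.injective {p q : ι → ℤ × ℤ} (hp : Injective p) (h : VMove p q) : Injective q := by
  rcases h with h | h
  · exact h.injective hp
  · exact h.injective hp

/-- decomposition of a run at its first vertical move. -/
theorem run_decomp [Fintype ι] {h v : ℕ} {p z : ι → ℤ × ℤ} (hrun : Run h v p z) :
    Injective p →
    ∃ p₁, Relation.ReflTransGen HMove p p₁ ∧
      ∃ h₀, h₀ ≤ v * Fintype.card ι ^ 2 ∧ Run h₀ v p₁ z := by
  induction hrun with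
  | nil p => intro _; exact ⟨p, Relation.ReflTransGen.refl, 0, by simp, Run.nil p⟩
  | hor hm _ ih =>
    intro hp
    obtain ⟨p₁, h1, h2⟩ := ih (hm.injective hp)
    exact ⟨p₁, Relation.ReflTransGen.head hm h1, h2⟩
  | @ver h v p q z hm _ ih =>
    intro hp
    obtain ⟨p₁, h1, h₀, h2, h3⟩ := ih (hm.injective hp)
    obtain ⟨h', h4, h5⟩ := compress (hm.injective hp) h1 h3
    refine ⟨p, Relation.ReflTransGen.refl, h', ?_, Run.ver hm h5⟩
    calc h' ≤ Fintype.card ι ^ 2 + h₀ := h4
      _ ≤ Fintype.card ι ^ 2 + v * Fintype.card ι ^ 2 := by omega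
      _ = (v + 1) * Fintype.card ι ^ 2 := by ring

theorem short [Fintype ι] {h v : ℕ} {p z : ι → ℤ × ℤ} (hp : Injective p) (hrun : Run h v p z) :
    ∃ h', h' ≤ (v + 1) * Fintype.card ι ^ 2 ∧ Run h' v p z := by
  obtain ⟨p₁, h1, h₀, h2, h3⟩ := run_decomp hrun hp
  obtain ⟨h', h4, h5⟩ := compress hp h1 h3
  refine ⟨h', ?_, h5⟩
  calc h' ≤ Fintype.card ι ^ 2 + h₀ := h4
    _ ≤ Fintype.card ι ^ 2 + v * Fintype.card ι ^ 2 := by omega
    _ = (v + 1) * Fintype.card ι ^ 2 := by ring

/-- number of tokens in row `c`. -/
def rowCard [Fintype ι] (c : ℤ) (p : ι → ℤ × ℤ) : ℕ :=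
  (Finset.univ.filter (fun i => (p i).2 = c)).card

theorem hmove_row {p q : ι → ℤ × ℤ} (h : HMove p q) (l : ι) : (q l).2 = (p l).2 := by
  rcases h with h | h <;>
  · obtain ⟨i, j, m, _, _, rfl⟩ := h
    by_cases hl : l = i
    · subst hl; simp
    · simp [hl]

theorem three_aux [Fintype ι] {b : ℤ} {p : ι → ℤ × ℤ} {i : ι} {c : ℤ × ℤ}
    (hb : ∀ i, b ≤ (p i).2 ∧ (p i).2 ≤ b + 2) (hi : (p i).2 ≠ b + 1) (hc : c.2 = b + 1) :
    (∀ l, b ≤ (update p i c l).2 ∧ (update p i c l).2 ≤ b + 2) ∧
      rowCard (b + 1) p + 1 ≤ rowCard (b + 1) (update p i c) := by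
  constructor
  · intro l
    by_cases hl : l = i
    · subst hl
      rw [update_self]
      omega
    · rw [update_of_ne hl]
      exact hb l
  · unfold rowCard
    rw [← Finset.card_insert_of_notMem (a := i)
      (s := Finset.univ.filter (fun l => (p l).2 = b + 1)) (by simpa using hi)]
    apply Finset.card_le_card
    intro l hl
    simp only [Finset.mem_insert, Finset.mem_filter, Finset.mem_univ, true_and] at hl ⊢
    by_cases hli : l = i
    · subst hli
      rw [update_self]
      exact hc
    · rw [update_of_ne hli]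
      rcases hl with hl | hl
      · exact absurd hl hli
      · exact hl

theorem vmove_three [Fintype ι] {b : ℤ} {p q : ι → ℤ × ℤ}
    (hb : ∀ i, b ≤ (p i).2 ∧ (p i).2 ≤ b + 2) (h : VMove p q) :
    q = p ∨ ((∀ i, b ≤ (q i).2 ∧ (q i).2 ≤ b + 2) ∧
      rowCard (b + 1) p + 1 ≤ rowCard (b + 1) q) := by
  rcases h with h | h <;>
  · obtain ⟨i, j, m, h1, _, rfl⟩ := h
    have h1y := congrArg Prod.snd h1
    simp only [Prod.snd_add, Prod.smul_snd, smul_eq_mul] at h1y
    have hi := hb i
    have hj := hb j
    rcases Nat.eq_zero_or_pos m with rfl | hm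
    · left
      simp
    · right
      have hm1 : m = 1 := by omega
      subst hm1
      apply three_aux hb
      · push_cast at h1y
        omega
      · simp only [Prod.snd_add, Prod.smul_snd, smul_eq_mul]
        push_cast at h1y ⊢
        omega

theorem three_rows [Fintype ι] (b : ℤ) {h v : ℕ} {p z : ι → ℤ × ℤ} (hrun : Run h v p z) :
    (∀ i, b ≤ (p i).2 ∧ (p i).2 ≤ b + 2) →
    ∃ v', v' + rowCard (b + 1) p ≤ Fintype.card ι ∧ Run h v' p z := by
  induction hrun with
  | nil p =>
    intro _
    refine ⟨0, ?_, Run.nil p⟩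
    simp only [zero_add]
    unfold rowCard
    exact Finset.card_le_univ _
  | @hor h v p q z hm _ ih =>
    intro hb
    obtain ⟨v', h1, h2⟩ := ih (fun i => by rw [hmove_row hm i]; exact hb i)
    refine ⟨v', ?_, Run.hor hm h2⟩
    have : rowCard (b + 1) q = rowCard (b + 1) p := by
      unfold rowCard
      congr 1
      ext l
      simp [hmove_row hm l]
    omega
  | @ver h v p q z hm _ ih =>
    intro hb
    rcases vmove_three hb hm with rfl | ⟨hq, hc⟩
    · exact ih hb
    · obtain ⟨v', h1, h2⟩ := ih hq
      exact ⟨v' + 1, by omega, Run.ver hm h2⟩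

end geometry

/-- **Short phases.**  Any sequence of Lunar Lockout moves with `v` vertical moves between two
configurations of `k` tokens can be replaced by one with the same ends, the same number `v` of
vertical moves and at most `(v + 1) * k ^ 2` horizontal moves.  If all tokens lie in three
consecutive rows, then at most `k` vertical and at most `(k + 1) * k ^ 2` horizontal moves
suffice. -/
theorem result {k : ℕ} (p z : Fin k → ℤ × ℤ) (hp : Injective p) (h v : ℕ) (hrun : Run h v p z) :
    (∃ h', h' ≤ (v + 1) * k ^ 2 ∧ Run h' v p z) ∧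
    (∀ b : ℤ, (∀ i, b ≤ (p i).2 ∧ (p i).2 ≤ b + 2) →
      ∃ h' v', v' ≤ k ∧ h' ≤ (k + 1) * k ^ 2 ∧ Run h' v' p z) := by
  constructor
  · have := short hp hrun
    simpa using this
  · intro b hb
    obtain ⟨v', h1, h2⟩ := three_rows b hrun hb
    obtain ⟨h', h3, h4⟩ := short hp h2
    simp only [Fintype.card_fin] at h1 h3
    have hv : v' ≤ k := by omega
    refine ⟨h', v', hv, h3.trans ?_, h4⟩
    exact Nat.mul_le_mul_right _ (by omega)

end Pool.Agent.Results.MP_2214b5_lc.ShortPhases
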